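import Pool.Agent.Helper313SN.Iso

/-!
# A lower bound for the number of `S_n`-extensions of a number field

Let `K` be a number field and `n ≥ 3`. The number of isomorphism classes of extensions `L/K` of degree
`n` whose Galois closure has group `S_n`, and whose relative discriminant has norm at most `B`, is at
least `c B ^ (1/2 + 1/n)`, `c > 0`, for all large `B`.

The proof (elementary; no sieve). Let `d = [K : ℚ]`, and let `S(R)` be the set of the integers `α` of
degree `n` over `K`, of trace zero, all of whose conjugates are at most `R` in absolute value. It has at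
most a constant times `R ^ (d (n(n+1)/2 - 1))` elements: count the minimal polynomials. By congruences
modulo three primes (Eisenstein at the first; linear times irreducible at the second; irreducible
quadratic times distinct linear polynomials at the third) a positive proportion of the polynomials is
irreducible with group `S_n`: let `S'(R)` be the set of their roots. The trace zero integers of ONE
`S_n`-extension `L/K` form a lattice of rank `d (n - 1)`, and all of them except `0` generate `L`, as `S_n`
is doubly transitive. So the number of those of size at most `R` is at most `(1 + 2t) ^ (d (n - 1))` times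
the number of those of size at most `R/t`, plus one for `0` (packing of balls). Summing over the fields
generated by the elements of `S'(R)`: `|S'(R)| ≤ (1 + 2t) ^ (d (n - 1)) (|S(R/t)| + number of fields)`, and
as `n(n+1)/2 - 1 > n - 1`, the term with `S(R/t)` is at most half of `|S'(R)|` for a large constant `t`. So
the number of the fields has the order of magnitude `R ^ (d (n(n+1)/2 - 1))`; their discriminants are at
most a constant times `R ^ (d n (n - 1))`.
-/

set_option autoImplicit false

open Filter

namespace Pool.Agent.Results.MP_b39724_nt.SymmetricLower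

/-- The fields `L` between `K` and its algebraic closure, of degree `n` over `K`, whose Galois group,
acting on the embeddings, is `G` (up to numbering), and whose relative discriminant has norm at most
`B` (that is, `|d_L| ≤ B |d_K| ^ n`). -/
def Ext (K : Type) [Field K] [NumberField K] (n : ℕ) (G : Subgroup (Equiv.Perm (Fin n)))
    (B : ℝ) : Set (IntermediateField K (AlgebraicClosure K)) :=
  {L | Module.finrank K L = n ∧
    (∃ e : (L →ₐ[K] AlgebraicClosure K) ≃ Fin n, ∀ π : Equiv.Perm (Fin n),
      π ∈ G ↔ ∃ σ : AlgebraicClosure K ≃ₐ[K] AlgebraicClosure K,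
        ∀ φ : L →ₐ[K] AlgebraicClosure K, e (σ.toAlgHom.comp φ) = π (e φ)) ∧
    ∃ h : NumberField L,
      ((|@NumberField.discr L _ h| : ℤ) : ℝ) ≤ B * ((|NumberField.discr K| : ℤ) : ℝ) ^ n}

/-- `n_K(G, B)`: the number of these fields up to `K`-isomorphism. -/
noncomputable def count (K : Type) [Field K] [NumberField K] (n : ℕ)
    (G : Subgroup (Equiv.Perm (Fin n))) (B : ℝ) : ℕ :=
  Nat.card (Quot fun L L' : Ext K n G B => Nonempty (L.1 ≃ₐ[K] L'.1))

theorem ext_eq (K : Type) [Field K] [NumberField K] (n : ℕ) (hn : n ≠ 0) (B : ℝ) :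
    Ext K n ⊤ B = Pool.Agent.Helper313SN.FullFld K (AlgebraicClosure K) n
      (B * ((|NumberField.discr K| : ℤ) : ℝ) ^ n) := by
  ext L
  constructor
  · rintro ⟨h1, ⟨e, he⟩, h3⟩
    refine ⟨h1, fun π => ?_, h3⟩
    obtain ⟨σ, hσ⟩ := (he (e.permCongr π)).1 (Subgroup.mem_top _)
    refine ⟨σ, fun φ => ?_⟩
    have h4 := hσ φ
    rw [Equiv.permCongr_apply, Equiv.symm_apply_apply] at h4
    exact e.injective h4
  · rintro ⟨h1, h2, h3⟩
    have hfd : FiniteDimensional K L := FiniteDimensional.of_finrank_pos (by omega)
    have hcard : Fintype.card (L →ₐ[K] AlgebraicClosure K) = n := by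
      rw [AlgHom.card K L (AlgebraicClosure K), h1]
    let e : (L →ₐ[K] AlgebraicClosure K) ≃ Fin n := Fintype.equivFinOfCardEq hcard
    refine ⟨h1, ⟨e, fun π => ⟨fun _ => ?_, fun _ => Subgroup.mem_top _⟩⟩, h3⟩
    obtain ⟨σ, hσ⟩ := h2 (e.symm.permCongr π)
    refine ⟨σ, fun φ => ?_⟩
    rw [hσ φ, Equiv.permCongr_apply, Equiv.symm_symm, Equiv.apply_symm_apply]

/-- For every number field `K` and `n ≥ 3`, the number of `S_n`-extensions of `K` is at least
`c B ^ (1/2 + 1/n)`. -/
theorem result (K : Type) [Field K] [NumberField K] (n : ℕ) (hn : 3 ≤ n) :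
    ∃ c : ℝ, 0 < c ∧ ∀ᶠ B : ℝ in atTop, (Ext K n ⊤ B).Finite ∧
      c * B ^ ((1 : ℝ) / 2 + 1 / (n : ℝ)) ≤ (count K n ⊤ B : ℝ) := by
  obtain ⟨c, hc, h⟩ := Pool.Agent.Helper313SN.rel_lower K (AlgebraicClosure K) hn
  refine ⟨c, hc, ?_⟩
  filter_upwards [h] with B hB
  rw [count, ext_eq K n (by omega) B]
  exact ⟨Pool.Agent.Helper313SN.finite_FullFld K (AlgebraicClosure K) n _, hB⟩

end Pool.Agent.Results.MP_b39724_nt.SymmetricLower
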